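import Mathlib
import Pool.Agent.H370R3.SphereTools

/-!
# A free action of a compact group on `C(X)` with infinite Rokhlin dimension

The group `∏ {1, -1}` acts on `∏ S^n` by sign changes. If `φ_0, ..., φ_d` are equivariant order zero
maps as in the definition of Rokhlin dimension at most `d`, then the sign of the coordinate `d + 1`
of the group gives `d + 1` odd functions on the sphere of dimension `d + 1` without common zero;
this contradicts the Borsuk-Ulam theorem.
-/

set_option autoImplicit false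
set_option linter.unusedSectionVars false

open scoped BoundedContinuousFunction
open Filter Topology

namespace Pool.Agent.Results.MP_cd8fef_an.FreeInfiniteRokhlin

section defs

/-- `ℓ^∞(ℕ, C(X))` -/
abbrev Linf (X : Type) [TopologicalSpace X] [CompactSpace X] : Type := ℕ →ᵇ C(X, ℂ)

/-- `c₀(ℕ, C(X))`, an ideal of `ℓ^∞(ℕ, C(X))` -/
def c0 (X : Type) [TopologicalSpace X] [CompactSpace X] : Ideal (Linf X) where
  carrier := {a | Tendsto (fun n => ‖a n‖) atTop (𝓝 0)}
  zero_mem' := by simp
  add_mem' {a b} ha hb := by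
    have h : Tendsto (fun n => ‖a n‖ + ‖b n‖) atTop (𝓝 (0 + 0)) := ha.add hb
    rw [add_zero] at h
    exact squeeze_zero (fun n => norm_nonneg _) (fun n => norm_add_le (a n) (b n)) h
  smul_mem' c a ha := by
    have h : Tendsto (fun n => ‖c‖ * ‖a n‖) atTop (𝓝 (‖c‖ * 0)) := Tendsto.const_mul ‖c‖ ha
    rw [mul_zero] at h
    refine squeeze_zero (fun n => norm_nonneg _) (fun n => ?_) h
    exact (norm_mul_le (c n) (a n)).trans
      (mul_le_mul_of_nonneg_right (c.norm_coe_le_norm n) (norm_nonneg _))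

/-- `C(X)_∞ = ℓ^∞(ℕ, C(X)) / c₀(ℕ, C(X))`, with the quotient norm -/
abbrev Ainf (X : Type) [TopologicalSpace X] [CompactSpace X] : Type := Linf X ⧸ c0 X

variable {X : Type} [TopologicalSpace X] [CompactSpace X]

theorem star_mem_c0 {a : Linf X} (ha : a ∈ c0 X) : star a ∈ c0 X := by
  have h : ∀ n, ‖(star a) n‖ = ‖a n‖ := fun n => norm_star (a n)
  change Tendsto (fun n => ‖(star a) n‖) atTop (𝓝 0)
  simp only [h]
  exact ha

/-- the involution of `C(X)_∞` -/
noncomputable instance : Star (Ainf X) where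
  star := Quotient.map' star (by
    intro a b h
    rw [Submodule.quotientRel_def] at h ⊢
    rw [← star_sub]
    exact star_mem_c0 h)

variable {G : Type} [Group G] [TopologicalSpace G] [IsTopologicalGroup G]
  [MulAction G X] [ContinuousSMul G X]

/-- the action on `C(X)`: `α_g(f)(x) = f(g⁻¹ x)` -/
noncomputable def act (g : G) (f : C(X, ℂ)) : C(X, ℂ) :=
  ⟨fun x => f (g⁻¹ • x), f.continuous.comp (continuous_const_smul g⁻¹)⟩

theorem norm_act_le (g : G) (f : C(X, ℂ)) : ‖act g f‖ ≤ ‖f‖ :=
  (ContinuousMap.norm_le _ (norm_nonneg f)).2 fun x => f.norm_coe_le_norm (g⁻¹ • x)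

/-- the action on bounded sequences -/
noncomputable def actL (g : G) (a : Linf X) : Linf X :=
  BoundedContinuousFunction.ofNormedAddCommGroupDiscrete (fun n => act g (a n)) ‖a‖
    fun n => (norm_act_le g (a n)).trans (a.norm_coe_le_norm n)

/-- the induced action `α_∞` on `C(X)_∞` -/
noncomputable def actInf (g : G) : Ainf X → Ainf X :=
  Quotient.map' (actL g) (by
    intro a b h
    rw [Submodule.quotientRel_def] at h ⊢
    refine squeeze_zero (fun n => norm_nonneg _) (fun n => ?_) h
    exact norm_act_le g ((a - b) n))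

/-- left translation on `C(G)`: `(g · a)(h) = a(g⁻¹ h)` -/
noncomputable def trans (g : G) (a : C(G, ℂ)) : C(G, ℂ) :=
  ⟨fun h => a (g⁻¹ * h), a.continuous.comp (continuous_const_mul g⁻¹)⟩

/-- positive elements of a C*-algebra: those of the form `c* c` -/
def Pos {B : Type} [Mul B] [Star B] (b : B) : Prop := ∃ c, b = star c * c

/-- completely positive contractive maps of order zero -/
structure IsCPCOrderZero {B C : Type} [Ring B] [Star B] [Norm B] [SMul ℂ B]
    [Ring C] [Star C] [Norm C] [SMul ℂ C] (φ : B → C) : Prop where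
  /-- linearity -/
  map_add : ∀ a b, φ (a + b) = φ a + φ b
  /-- linearity -/
  map_smul : ∀ (z : ℂ) (a : B), φ (z • a) = z • φ a
  /-- complete positivity -/
  cp : ∀ (n : ℕ) (a : Fin n → B) (b : Fin n → C),
    Pos (∑ i, ∑ j, star (b i) * φ (star (a i) * a j) * b j)
  /-- contractive -/
  contr : ∀ a, ‖φ a‖ ≤ ‖a‖
  /-- order zero: orthogonal positive elements have orthogonal images -/
  orderZero : ∀ a b, Pos a → Pos b → a * b = 0 → φ a * φ b = 0

/-- `dim_Rok(α) ≤ d` for the action `α` of `G` on `C(X)` -/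
def RokhlinDimLE (G X : Type) [Group G] [TopologicalSpace G] [IsTopologicalGroup G]
    [CompactSpace G] [TopologicalSpace X] [CompactSpace X] [MulAction G X]
    [ContinuousSMul G X] (d : ℕ) : Prop :=
  ∃ φ : Fin (d + 1) → C(G, ℂ) → Ainf X,
    (∀ j, IsCPCOrderZero (φ j) ∧
      -- the maps are equivariant
      (∀ g a, φ j (trans g a) = actInf g (φ j a)) ∧
      -- the orbit maps of the values are norm continuous
      (∀ a, Continuous fun g : G => actInf g (φ j a)) ∧
      -- the values commute with `C(X)`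
      (∀ (a : C(G, ℂ)) (f : C(X, ℂ)),
        φ j a * Ideal.Quotient.mk (c0 X) (BoundedContinuousFunction.const ℕ f) =
          Ideal.Quotient.mk (c0 X) (BoundedContinuousFunction.const ℕ f) * φ j a)) ∧
    ∑ j, φ j 1 = 1

end defs

section example_

/-- the group `∏ {1, -1}` -/
abbrev Gr : Type := ℕ → Metric.sphere (0 : ℝ) 1

/-- the space `∏ S^n` -/
abbrev Sp : Type := (n : ℕ) → Metric.sphere (0 : EuclideanSpace ℝ (Fin (n + 1))) 1

theorem sgn_cases (r : Metric.sphere (0 : ℝ) 1) : (r : ℝ) = 1 ∨ (r : ℝ) = -1 := by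
  have h : ‖(r : ℝ)‖ = 1 := by simp
  rw [Real.norm_eq_abs] at h
  exact (abs_eq zero_le_one).1 h

theorem free_action (g : Gr) (x : Sp) (h : g • x = x) : g = 1 := by
  funext n
  have h1 : g n • x n = x n := congrFun h n
  have h2 : (g n : ℝ) • (x n : EuclideanSpace ℝ (Fin (n + 1))) = x n := congrArg Subtype.val h1
  have h3 : (x n : EuclideanSpace ℝ (Fin (n + 1))) ≠ 0 := by
    intro h0
    have h4 : ‖(x n : EuclideanSpace ℝ (Fin (n + 1)))‖ = 1 := by simp
    rw [h0, norm_zero] at h4
    exact zero_ne_one h4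
  have h5 : ((g n : ℝ) - 1) • (x n : EuclideanSpace ℝ (Fin (n + 1))) = 0 := by
    rw [sub_smul, one_smul, h2, sub_self]
  have h6 : (g n : ℝ) = 1 := by
    rcases smul_eq_zero.1 h5 with h | h
    · linarith
    · exact absurd h h3
  exact Subtype.ext h6

/-- the sign change in the coordinate `N` -/
noncomputable def flip (N : ℕ) : Gr := Function.update 1 N ⟨-1, by simp⟩

theorem flip_inv_same (N : ℕ) : (((flip N)⁻¹ N : Metric.sphere (0 : ℝ) 1) : ℝ) = -1 := by
  simp [flip, Pi.inv_apply]

theorem flip_inv_ne {N n : ℕ} (h : n ≠ N) : (flip N)⁻¹ n = 1 := by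
  simp [flip, Pi.inv_apply, h]

/-- the base point of the space -/
noncomputable def base : Sp := fun n => ⟨EuclideanSpace.single 0 1, by simp⟩

/-- the inclusion of the sphere as a coordinate -/
noncomputable def incl (N : ℕ) (y : Metric.sphere (0 : EuclideanSpace ℝ (Fin (N + 1))) 1) : Sp :=
  Function.update base N y

theorem continuous_incl (N : ℕ) : Continuous (incl N) :=
  continuous_const.update N continuous_id

theorem incl_neg (N : ℕ) (y : Metric.sphere (0 : EuclideanSpace ℝ (Fin (N + 1))) 1) :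
    incl N (-y) = (flip N)⁻¹ • incl N y := by
  funext n
  change incl N (-y) n = (flip N)⁻¹ n • incl N y n
  by_cases h : n = N
  · subst h
    apply Subtype.ext
    change ((incl n (-y) n : EuclideanSpace ℝ (Fin (n + 1)))) =
      (((flip n)⁻¹ n : Metric.sphere (0 : ℝ) 1) : ℝ) • (incl n y n : EuclideanSpace ℝ (Fin (n + 1)))
    rw [flip_inv_same]
    simp [incl]
  · rw [flip_inv_ne h, one_smul]
    simp [incl, h]

/-- the characteristic functions of the two values of the coordinate `N` -/
noncomputable def chi (N : ℕ) (s : ℝ) : C(Gr, ℂ) :=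
  ⟨fun g => (((1 + s * (g N : ℝ)) / 2 : ℝ) : ℂ), by
    have h : Continuous fun g : Gr => ((g N : Metric.sphere (0 : ℝ) 1) : ℝ) :=
      continuous_subtype_val.comp (continuous_apply N)
    exact Complex.continuous_ofReal.comp (by fun_prop)⟩

theorem chi_sq (N : ℕ) {s : ℝ} (hs : s = 1 ∨ s = -1) : chi N s = star (chi N s) * chi N s := by
  ext g
  have h : ((1 + s * (g N : ℝ)) / 2 : ℝ) = ((1 + s * (g N : ℝ)) / 2) * ((1 + s * (g N : ℝ)) / 2) := by
    rcases sgn_cases (g N) with h | h <;> rcases hs with h' | h' <;> rw [h, h'] <;> norm_num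
  change (((1 + s * (g N : ℝ)) / 2 : ℝ) : ℂ) =
    (starRingEnd ℂ) (((1 + s * (g N : ℝ)) / 2 : ℝ) : ℂ) * (((1 + s * (g N : ℝ)) / 2 : ℝ) : ℂ)
  rw [Complex.conj_ofReal, ← Complex.ofReal_mul, ← h]

theorem chi_mul (N : ℕ) : chi N 1 * chi N (-1) = 0 := by
  ext g
  change (((1 + 1 * (g N : ℝ)) / 2 : ℝ) : ℂ) * (((1 + -1 * (g N : ℝ)) / 2 : ℝ) : ℂ) = 0
  rw [← Complex.ofReal_mul]
  rcases sgn_cases (g N) with h | h <;> rw [h] <;> norm_num

theorem chi_add (N : ℕ) : chi N 1 + chi N (-1) = 1 := by
  ext g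
  change (((1 + 1 * (g N : ℝ)) / 2 : ℝ) : ℂ) + (((1 + -1 * (g N : ℝ)) / 2 : ℝ) : ℂ) = 1
  rw [← Complex.ofReal_add]
  have h : (1 + 1 * (g N : ℝ)) / 2 + (1 + -1 * (g N : ℝ)) / 2 = 1 := by ring
  rw [h, Complex.ofReal_one]

theorem trans_chi (N : ℕ) : trans (flip N) (chi N 1) = chi N (-1) := by
  ext g
  change (((1 + 1 * ((((flip N)⁻¹ * g) N : Metric.sphere (0 : ℝ) 1) : ℝ)) / 2 : ℝ) : ℂ) =
    (((1 + -1 * (g N : ℝ)) / 2 : ℝ) : ℂ)
  have h : (((((flip N)⁻¹ * g) N : Metric.sphere (0 : ℝ) 1) : ℝ)) = -1 * (g N : ℝ) := by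
    change (((flip N)⁻¹ N : Metric.sphere (0 : ℝ) 1) : ℝ) * (g N : ℝ) = -1 * (g N : ℝ)
    rw [flip_inv_same]
  rw [h]
  ring_nf

theorem star_mk {X : Type} [TopologicalSpace X] [CompactSpace X] (a : Linf X) :
    star (Ideal.Quotient.mk (c0 X) a) = Ideal.Quotient.mk (c0 X) (star a) := rfl

/-- squared norms of the values -/
noncomputable def q {X : Type} [TopologicalSpace X] [CompactSpace X] (c : Linf X) (k : ℕ)
    (x : X) : ℝ := ‖c k x‖ ^ 2

theorem star_mul_apply {X : Type} [TopologicalSpace X] [CompactSpace X] (c : Linf X) (k : ℕ)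
    (x : X) : (star c * c) k x = ((q c k x : ℝ) : ℂ) := by
  change (starRingEnd ℂ) (c k x) * c k x = _
  rw [mul_comm, Complex.mul_conj, Complex.normSq_eq_norm_sq]
  rfl

theorem core {G X : Type} [Group G] [TopologicalSpace G] [IsTopologicalGroup G]
    [CompactSpace G] [TopologicalSpace X] [CompactSpace X] [MulAction G X]
    [ContinuousSMul G X] (d : ℕ) (e : G) (u v : C(G, ℂ)) (hu : u = star u * u)
    (hv : v = star v * v) (huv : u * v = 0) (huv1 : u + v = 1) (htr : trans e u = v)
    (ι : Pool.Agent.H370R3.SphereTools.Sph (d + 1) → X) (hι : Continuous ι)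
    (hneg : ∀ y, ι (-y) = e⁻¹ • ι y) : ¬ RokhlinDimLE G X d := by
  rintro ⟨φ, hφ, hsum⟩
  have hpos : ∀ j, ∃ c : Linf X, φ j u = Ideal.Quotient.mk (c0 X) (star c * c) := by
    intro j
    have h := (hφ j).1.cp 1 (fun _ => u) (fun _ => 1)
    simp only [Finset.univ_unique, Finset.sum_const, Finset.card_singleton, one_smul] at h
    rw [← hu] at h
    have h0 : star (1 : Linf X) = 1 := by
      ext k x
      change (starRingEnd ℂ) 1 = 1
      exact map_one _
    have h1 : star (1 : Ainf X) = 1 := by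
      change Ideal.Quotient.mk (c0 X) (star 1) = Ideal.Quotient.mk (c0 X) 1
      exact congrArg _ h0
    have h2 : star (1 : Ainf X) * φ j u * 1 = φ j u := by
      rw [h1]
      obtain ⟨w, hw⟩ := Ideal.Quotient.mk_surjective (I := c0 X) (φ j u)
      rw [← hw]
      change Ideal.Quotient.mk (c0 X) (1 * w * 1) = Ideal.Quotient.mk (c0 X) w
      rw [one_mul, mul_one]
    obtain ⟨c, hc⟩ := h
    obtain ⟨c', rfl⟩ := Ideal.Quotient.mk_surjective c
    refine ⟨c', h2.symm.trans (hc.trans ?_)⟩
    rw [star_mk, map_mul]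
  choose c hc using hpos
  have hm : ∀ j, φ j v = Ideal.Quotient.mk (c0 X) (actL e (star (c j) * c j)) := by
    intro j
    rw [← htr, (hφ j).2.1, hc]
    rfl
  have hprod : ∀ j, star (c j) * c j * actL e (star (c j) * c j) ∈ c0 X := by
    intro j
    rw [← Ideal.Quotient.eq_zero_iff_mem, map_mul, ← hc, ← hm]
    exact (hφ j).1.orderZero _ _ ⟨_, hu⟩ ⟨_, hv⟩ huv
  have hone : (∑ j, (star (c j) * c j + actL e (star (c j) * c j))) - 1 ∈ c0 X := by
    rw [← Ideal.Quotient.eq_zero_iff_mem, map_sub, map_sum, map_one, sub_eq_zero, ← hsum]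
    refine Finset.sum_congr rfl fun j _ => ?_
    rw [map_add, ← hc, ← hm, ← huv1, (hφ j).1.map_add]
  have hδ : (0 : ℝ) < (1 / (4 * ((d : ℝ) + 1))) ^ 2 := by positivity
  have hev : ∀ᶠ k in atTop, (∀ j, ‖(star (c j) * c j * actL e (star (c j) * c j)) k‖ <
      (1 / (4 * ((d : ℝ) + 1))) ^ 2) ∧
      ‖((∑ j, (star (c j) * c j + actL e (star (c j) * c j))) - 1 : Linf X) k‖ < 1 / 2 := by
    refine (eventually_all.2 fun j => ?_).and ?_
    · exact (hprod j).eventually_lt_const hδ
    · exact hone.eventually_lt_const (by norm_num)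
  obtain ⟨k, hk1, hk2⟩ := hev.exists
  have hqc : ∀ j, Continuous (q (c j) k) := fun j => ((c j k).continuous.norm).pow 2
  obtain ⟨y, hy⟩ := Pool.Agent.H370R3.SphereTools.borsuk_ulam (n := d + 1) (m := d + 1) le_rfl
    (fun y j => q (c j) k (ι y) - q (c j) k (e⁻¹ • ι y))
    (continuous_pi fun j => ((hqc j).comp hι).sub
      ((hqc j).comp ((continuous_const_smul _).comp hι)))
    (by
      intro y
      funext j
      have h1 : e⁻¹ • ι (-y) = ι y := by
        rw [← hneg, neg_neg]
      change q (c j) k (ι (-y)) - q (c j) k (e⁻¹ • ι (-y)) =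
        -(q (c j) k (ι y) - q (c j) k (e⁻¹ • ι y))
      rw [h1, hneg]
      ring)
  set x : X := ι y with hx
  have hq : ∀ j, q (c j) k (e⁻¹ • x) = q (c j) k x := by
    intro j
    have h : q (c j) k x - q (c j) k (e⁻¹ • x) = 0 := congrFun hy j
    linarith
  have hnn : ∀ j, 0 ≤ q (c j) k x := fun j => by unfold q; positivity
  have hsmall : ∀ j, q (c j) k x < 1 / (4 * ((d : ℝ) + 1)) := by
    intro j
    have h1 := ((star (c j) * c j * actL e (star (c j) * c j)) k).norm_coe_le_norm x
    have h2 : (star (c j) * c j * actL e (star (c j) * c j)) k x =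
        (((q (c j) k x) ^ 2 : ℝ) : ℂ) := by
      change (star (c j) * c j) k x * (star (c j) * c j) k (e⁻¹ • x) = _
      rw [star_mul_apply, star_mul_apply, hq, ← Complex.ofReal_mul, pow_two]
    rw [h2, Complex.norm_real, Real.norm_eq_abs, abs_of_nonneg (by positivity)] at h1
    have h3 := h1.trans_lt (hk1 j)
    exact lt_of_pow_lt_pow_left₀ 2 (by positivity) h3
  have htot : ∑ j, (q (c j) k x + q (c j) k x) ≤ 1 / 2 := by
    calc ∑ j, (q (c j) k x + q (c j) k x)
        ≤ ∑ _j : Fin (d + 1), (1 / (4 * ((d : ℝ) + 1)) + 1 / (4 * ((d : ℝ) + 1))) :=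
          Finset.sum_le_sum fun j _ => add_le_add (hsmall j).le (hsmall j).le
      _ = 1 / 2 := by
          rw [Finset.sum_const, Finset.card_univ, Fintype.card_fin, nsmul_eq_mul]
          have : (d : ℝ) + 1 ≠ 0 := by positivity
          push_cast
          field_simp
          ring
  have h4 := (((∑ j, (star (c j) * c j + actL e (star (c j) * c j))) - 1 :
    Linf X) k).norm_coe_le_norm x
  have h5 : ((∑ j, (star (c j) * c j + actL e (star (c j) * c j))) - 1 : Linf X) k x =
      ((∑ j, (q (c j) k x + q (c j) k x) - 1 : ℝ) : ℂ) := by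
    have h6 : ((∑ j, (star (c j) * c j + actL e (star (c j) * c j))) - 1 : Linf X) k x =
        (∑ j, ((star (c j) * c j) k x + (star (c j) * c j) k (e⁻¹ • x))) - 1 := by
      rw [BoundedContinuousFunction.sub_apply, BoundedContinuousFunction.sum_apply,
        ContinuousMap.sub_apply, ContinuousMap.sum_apply]
      rfl
    rw [h6]
    push_cast
    congr 1
    refine Finset.sum_congr rfl fun j _ => ?_
    rw [star_mul_apply, star_mul_apply, hq]
  rw [h5, Complex.norm_real, Real.norm_eq_abs] at h4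
  have h7 := (abs_lt.1 (h4.trans_lt hk2)).1
  linarith

theorem infinite_dim (d : ℕ) : ¬ RokhlinDimLE Gr Sp d :=
  core d (flip (d + 1)) (chi (d + 1) 1) (chi (d + 1) (-1)) (chi_sq _ (Or.inl rfl))
    (chi_sq _ (Or.inr rfl)) (chi_mul _) (chi_add _) (trans_chi _) (incl (d + 1))
    (continuous_incl _) (incl_neg _)

end example_

/-- There are a compact Hausdorff group `G` (here even abelian, metrizable and profinite) and a
compact Hausdorff space `X` with a continuous free action of `G` such that the induced action on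
`C(X)` has infinite Rokhlin dimension. -/
theorem result : ∃ (G X : Type) (_ : CommGroup G) (_ : TopologicalSpace G)
    (_ : IsTopologicalGroup G) (_ : CompactSpace G) (_ : T2Space G) (_ : TopologicalSpace X)
    (_ : CompactSpace X) (_ : T2Space X) (_ : MulAction G X) (_ : ContinuousSMul G X),
    (∀ (g : G) (x : X), g • x = x → g = 1) ∧ ∀ d : ℕ, ¬ RokhlinDimLE G X d := by
  refine ⟨Gr, Sp, inferInstance, inferInstance, inferInstance, inferInstance, inferInstance,
    inferInstance, inferInstance, inferInstance, inferInstance, inferInstance, free_action,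
    infinite_dim⟩

end Pool.Agent.Results.MP_cd8fef_an.FreeInfiniteRokhlin
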